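import Pool.Agent.Helper28.DF.Dual4

/-!
DG-3: the two configurations are not both degenerate.
-/

set_option autoImplicit false

namespace Pool.Agent.Helper17.CT
open Function

section
variable {D : Type} [Finite D] {M : CMap D}

private theorem nb_adj2 (hN : Nice M) {x y : D} (h : M.Face x y) (h' : M.Face (M.a x) (M.a y)) :
    x = y := faces2 M hN.pl hN.con hN.nfa h h'

private theorem nb_adj3 (hN : Nice M) {x y w : D} (h : M.Face x y) (h1 : M.Face (M.a x) w)
    (h2 : M.Face (M.a w) (M.a y)) : M.f y = x ∨ M.f x = y := by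
  have h3 : M.Face (M.a (M.a y)) x := by
    rw [M.a2]
    exact face_symm M h
  rcases faces3 M hN.pl hN.c4 hN.nfa h1 h2 h3 with ⟨e1, e2⟩ | ⟨e1, e2⟩
  · left
    show M.s (M.a y) = x
    rw [e2, e1, M.s3]
  · right
    rw [M.a2] at e1
    exact e1.symm

omit [Finite D] in
private theorem nb_one {y z : D} (h : M.f z = y) : M.f (M.a (M.f (M.a y))) = M.a z := by
  have h1 : M.s (M.a z) = y := h
  show M.s (M.a (M.a (M.s (M.a (M.a y))))) = M.a z
  rw [M.a2, M.a2, ← h1, M.s3]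

omit [Finite D] in
private theorem nb_last {y : D} {c : ℕ} (hc : minimalPeriod M.f (M.a y) = c + 1) :
    M.f (M.a (M.f y)) = M.a ((M.f)^[c] (M.a y)) := by
  have h1 : (M.f)^[c + 1] (M.a y) = M.a y := by
    rw [← hc]
    exact iterate_minimalPeriod
  rw [iterate_succ_apply'] at h1
  have h2 : M.s (M.a ((M.f)^[c] (M.a y))) = M.a y := h1
  have h3 := M.s3 (M.a ((M.f)^[c] (M.a y)))
  rw [h2] at h3
  show M.s (M.a (M.a (M.s (M.a y)))) = _
  rw [M.a2]
  exact h3

omit [Finite D] in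
private theorem nb_inj {x : D} {p i j : ℕ} (hp : minimalPeriod M.f x = p) (hi : i < p) (hj : j < p)
    (h : (M.f)^[i] x = (M.f)^[j] x) : i = j := by
  subst hp
  exact iterate_injOn_Iio_minimalPeriod hi hj h

/-- DG-3: the two configurations are not both degenerate. -/
theorem not_both (hN : Nice M) (e : D) (h5 : minimalPeriod M.f e = 5)
    (h6 : minimalPeriod M.f (M.a ((M.f)^[2] e)) = 6)
    (h6' : minimalPeriod M.f (M.a ((M.f)^[3] e)) = 6)
    {i : ℕ} {x : D} (hi : i = 2 ∨ i = 3) (h1 : M.Face (M.a ((M.f)^[i] (M.a ((M.f)^[2] e)))) x)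
    (h2 : M.Face (M.a ((M.f)^[4] e)) (M.a x))
    {i' : ℕ} {x' : D} (hi' : i' = 3 ∨ i' = 4)
    (h1' : M.Face (M.a ((M.f)^[i'] (M.a ((M.f)^[3] e)))) x')
    (h2' : M.Face (M.a ((M.f)^[1] e)) (M.a x')) : False := by
  -- face classes
  let q : D → Set D := fun x => {y | M.Face x y}
  have hq : ∀ x y, M.Face x y ↔ q x = q y := by
    intro x y
    constructor
    · intro h
      ext z
      exact ⟨fun hz => face_trans M (face_symm M h) hz, fun hz => face_trans M h hz⟩
    · intro h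
      have h0 : y ∈ q y := ⟨0, rfl⟩
      rw [← h] at h0
      exact h0
  have qf : ∀ (n : ℕ) (x : D), q ((M.f)^[n] x) = q x := fun n x =>
    ((hq _ _).1 ⟨n, rfl⟩).symm
  have qf1 : ∀ (x : D), q (M.f x) = q x := fun x => qf 1 x
  have A2 : ∀ {x y : D}, q x = q y → q (M.a x) = q (M.a y) → x = y := fun h h' =>
    nb_adj2 hN ((hq _ _).2 h) ((hq _ _).2 h')
  have A3 : ∀ {x y w : D}, q x = q y → q (M.a x) = q w → q (M.a w) = q (M.a y) →
      M.f y = x ∨ M.f x = y := fun h h' h'' =>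
    nb_adj3 hN ((hq _ _).2 h) ((hq _ _).2 h') ((hq _ _).2 h'')
  have NF : ∀ d, q d ≠ q (M.a d) := fun d h => hN.nfa d ((hq _ _).2 h)
  rw [hq] at h1 h2 h1' h2'
  -- darts
  obtain ⟨e2, he2⟩ : ∃ y, y = (M.f)^[2] e := ⟨_, rfl⟩
  obtain ⟨e3, he3⟩ : ∃ y, y = (M.f)^[3] e := ⟨_, rfl⟩
  obtain ⟨e4, he4⟩ : ∃ y, y = (M.f)^[4] e := ⟨_, rfl⟩
  obtain ⟨e1, he1⟩ : ∃ y, y = (M.f)^[1] e := ⟨_, rfl⟩
  have f12 : M.f e1 = e2 := by rw [he1, he2]; rfl
  have f23 : M.f e2 = e3 := by rw [he3, he2]; rfl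
  have f34 : M.f e3 = e4 := by rw [he3, he4]; rfl
  have qe1 : q e1 = q e := by rw [he1, qf]
  have qe2 : q e2 = q e := by rw [he2, qf]
  have qe3 : q e3 = q e := by rw [he3, qf]
  have qe4 : q e4 = q e := by rw [he4, qf]
  have n12 : e1 ≠ e2 := by
    rw [he1, he2]; intro h; exact absurd (nb_inj h5 (by norm_num) (by norm_num) h) (by norm_num)
  have n14 : e1 ≠ e4 := by
    rw [he1, he4]; intro h; exact absurd (nb_inj h5 (by norm_num) (by norm_num) h) (by norm_num)
  have n24 : e2 ≠ e4 := by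
    rw [he2, he4]; intro h; exact absurd (nb_inj h5 (by norm_num) (by norm_num) h) (by norm_num)
  have n23 : e2 ≠ e3 := by
    rw [he2, he3]; intro h; exact absurd (nb_inj h5 (by norm_num) (by norm_num) h) (by norm_num)
  have n34 : e3 ≠ e4 := by
    rw [he3, he4]; intro h; exact absurd (nb_inj h5 (by norm_num) (by norm_num) h) (by norm_num)
  rw [← he2] at h6 h1
  rw [← he3] at h6' h1'
  rw [← he4] at h2
  rw [← he1] at h2'
  clear he1 he2 he3 he4 h5
  -- neighbours of g1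
  have o1 : q (M.a (M.f (M.a e2))) = q (M.a e1) := by rw [← nb_one f12, qf1]
  have o2 : q (M.a (M.f (M.a e3))) = q (M.a e2) := by rw [← nb_one f23, qf1]
  have l1 : q (M.a ((M.f)^[5] (M.a e2))) = q (M.a e3) := by
    rw [← nb_last (c := 5) h6, qf1, f23]
  have l2 : q (M.a ((M.f)^[5] (M.a e3))) = q (M.a e4) := by
    rw [← nb_last (c := 5) h6', qf1, f34]
  -- neighbours with different numbers
  have N1 : ∀ {a b : ℕ}, a < 6 → b < 6 → a ≠ b →
      q (M.a ((M.f)^[a] (M.a e2))) ≠ q (M.a ((M.f)^[b] (M.a e2))) := by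
    intro a b ha hb hab h
    have h0 : q ((M.f)^[a] (M.a e2)) = q ((M.f)^[b] (M.a e2)) := by rw [qf, qf]
    exact hab (nb_inj h6 ha hb (A2 h0 h))
  have N2 : ∀ {a b : ℕ}, a < 6 → b < 6 → a ≠ b →
      q (M.a ((M.f)^[a] (M.a e3))) ≠ q (M.a ((M.f)^[b] (M.a e3))) := by
    intro a b ha hb hab h
    have h0 : q ((M.f)^[a] (M.a e3)) = q ((M.f)^[b] (M.a e3)) := by rw [qf, qf]
    exact hab (nb_inj h6' ha hb (A2 h0 h))
  have z1 : q (M.a ((M.f)^[0] (M.a e2))) = q e := by
    show q (M.a (M.a e2)) = _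
    rw [M.a2, qe2]
  have z2 : q (M.a ((M.f)^[0] (M.a e3))) = q e := by
    show q (M.a (M.a e3)) = _
    rw [M.a2, qe3]
  have hi6 : i < 6 ∧ i ≠ 0 ∧ i ≠ 1 ∧ i ≠ 5 := by omega
  have hi6' : i' < 6 ∧ i' ≠ 0 ∧ i' ≠ 1 ∧ i' ≠ 5 ∧ i' ≠ 2 := by omega
  -- the faces g1, u, h2, P are different
  have g1P : q (M.a e2) ≠ q e := fun h => NF e2 (by rw [qe2, h])
  have h2P : q (M.a e4) ≠ q e := fun h => NF e4 (by rw [qe4, h])
  have g2P : q (M.a e3) ≠ q e := fun h => NF e3 (by rw [qe3, h])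
  have h1P : q (M.a e1) ≠ q e := fun h => NF e1 (by rw [qe1, h])
  have uP : q x ≠ q e := by
    rw [← h1, ← z1]
    exact N1 hi6.1 (by norm_num) hi6.2.1
  have uh2 : q x ≠ q (M.a e4) := by
    rw [h2]
    exact NF x
  have g1u : q (M.a e2) ≠ q x := by
    rw [← h1]
    intro h
    exact NF ((M.f)^[i] (M.a e2)) (by rw [qf, h])
  have g1h2 : q (M.a e2) ≠ q (M.a e4) := fun h => n24 (A2 (by rw [qe2, qe4]) h)
  -- the dual walk
  let c : Fin 4 → D := ![(M.f)^[i] (M.a e2), x, M.a e4, e2]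
  have c0 : c 0 = (M.f)^[i] (M.a e2) := rfl
  have c1 : c 1 = x := rfl
  have c2 : c 2 = M.a e4 := rfl
  have c3 : c 3 = e2 := rfl
  have qc0 : q (c 0) = q (M.a e2) := by rw [c0, qf]
  have qc1 : q (c 1) = q x := by rw [c1]
  have qc2 : q (c 2) = q (M.a e4) := by rw [c2]
  have qc3 : q (c 3) = q e := by rw [c3, qe2]
  have hstep : ∀ j, q (M.a (c j)) = q (c (j + 1)) := by
    intro j
    fin_cases j
    · show q (M.a (c 0)) = q (c 1)
      rw [qc1, c0, h1]
    · show q (M.a (c 1)) = q (c 2)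
      rw [qc2, c1, h2]
    · show q (M.a (c 2)) = q (c 3)
      rw [qc3, c2, M.a2, qe4]
    · show q (M.a (c 3)) = q (c 0)
      rw [qc0, c3]
  have hcinj : ∀ j k, q (c j) = q (c k) → j = k := by
    intro j k h
    fin_cases j <;> fin_cases k <;>
      first
      | rfl
      | (exfalso
         simp only [Fin.zero_eta, Fin.mk_one, Fin.reduceFinMk, qc0, qc1, qc2, qc3] at h
         first
         | exact g1P h
         | exact g1P h.symm
         | exact h2P h
         | exact h2P h.symm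
         | exact uP h
         | exact uP h.symm
         | exact uh2 h
         | exact uh2 h.symm
         | exact g1u h
         | exact g1u h.symm
         | exact g1h2 h
         | exact g1h2 h.symm)
  obtain ⟨X, hX, hXc⟩ := dual4 hN c (fun j => (hq _ _).2 (hstep j)) (by
    intro j k hjk
    refine ⟨fun h => hjk (hcinj j k (by rw [h])), fun h => ?_⟩
    have e1 : j = k + 1 := hcinj _ _ (by rw [h, hstep])
    have e2 : q (M.a (c j)) = q (c k) := by rw [h, M.a2]
    rw [hstep] at e2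
    have e3 : j + 1 = k := hcinj _ _ e2
    rw [e1] at e3
    revert e3
    clear * -
    revert k
    decide)
  -- faces other than g1, u, h2, P
  have key : ∀ (F : Set D), F ≠ q (M.a e2) → F ≠ q x → F ≠ q (M.a e4) → F ≠ q e →
      ∀ y, q y = F → X y = X (M.a y) := by
    intro F k1 k2 k3 k4 y hy
    by_contra hcon
    obtain ⟨j, hj | hj⟩ := (hXc y).1 hcon
    · rw [hj] at hy
      fin_cases j
      · exact k1 (hy.symm.trans qc0)
      · exact k2 (hy.symm.trans qc1)
      · exact k3 (hy.symm.trans qc2)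
      · exact k4 (hy.symm.trans qc3)
    · rw [hj, hstep] at hy
      fin_cases j
      · exact k2 (hy.symm.trans qc1)
      · exact k3 (hy.symm.trans qc2)
      · exact k4 (hy.symm.trans qc3)
      · exact k1 (hy.symm.trans qc0)
  have CF : ∀ (z : D), q z ≠ q (M.a e2) → q z ≠ q x → q z ≠ q (M.a e4) → q z ≠ q e →
      ∀ y, q z = q y → X y = X z ∧ X (M.a y) = X z := by
    intro z k1 k2 k3 k4 y hy
    exact const_face X hX (fun y hy => key _ k1 k2 k3 k4 y ((hq _ _).1 hy).symm) ((hq _ _).2 hy)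
  -- the face g2
  have G2 := CF (M.a e3) (fun h => n23 (A2 (by rw [qe2, qe3]) h.symm))
    (by
      rw [← l1, ← h1]
      exact N1 (by norm_num) hi6.1 (fun h => hi6.2.2.2 h.symm))
    (fun h => n34 (A2 (by rw [qe3, qe4]) h)) g2P
  -- the face h1
  have H1 := CF (M.a e1) (fun h => n12 (A2 (by rw [qe1, qe2]) h))
    (by
      rw [← o1, ← h1]
      exact N1 (a := 1) (by norm_num) hi6.1 (fun h => hi6.2.2.1 h.symm))
    (fun h => n14 (A2 (by rw [qe1, qe4]) h)) h1P
  -- the face u'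
  have U' := CF x'
    (by
      rw [← h1', ← o2]
      exact N2 (b := 1) hi6'.1 (by norm_num) hi6'.2.2.1)
    (by
      intro h
      have w1 : q (M.f (M.a e3)) = q ((M.f)^[i'] (M.a e3)) := by rw [qf1, qf]
      have w2 : q (M.a (M.f (M.a e3))) = q (c 0) := by rw [o2, qc0]
      have w3 : q (M.a (c 0)) = q (M.a ((M.f)^[i'] (M.a e3))) := by
        rw [hstep, h1', h]
        exact qc1
      rcases A3 w1 w2 w3 with h' | h'
      · have h'' : (M.f)^[i' + 1] (M.a e3) = (M.f)^[1] (M.a e3) := by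
          rw [iterate_succ_apply']
          exact h'
        exact absurd (nb_inj h6' (by omega) (by norm_num) h'') (by omega)
      · have h'' : (M.f)^[2] (M.a e3) = (M.f)^[i'] (M.a e3) := h'
        exact absurd (nb_inj h6' (by norm_num) (by omega) h'') (by omega))
    (by
      rw [← h1', ← l2]
      exact N2 hi6'.1 (by norm_num) hi6'.2.2.2.1)
    (by
      rw [← h1', ← z2]
      exact N2 hi6'.1 (by norm_num) hi6'.2.1)
  -- conclusion
  have b1 : X (M.a ((M.f)^[i'] (M.a e3))) = X (M.a e3) := (G2 _ (by rw [qf])).2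
  have b2 : X (M.a ((M.f)^[i'] (M.a e3))) = X x' := (U' _ (by rw [h1'])).1
  have b3 : X (M.a x') = X x' := (U' _ rfl).2
  have b4 : X (M.a x') = X (M.a e1) := (H1 _ h2').1
  have b5 : X e2 = X (M.a e1) := by
    rw [← f12]
    exact hX (M.a e1)
  have b6 : X e3 = X (M.a e3) := by
    have := (G2 _ rfl).2
    rwa [M.a2] at this
  have b7 : X e3 = X (M.a e2) := by
    rw [← f23]
    exact hX (M.a e2)
  have b8 := (hXc e2).2 ⟨3, Or.inl rfl⟩
  exact b8 (by rw [b5, ← b4, b3, ← b2, b1, ← b6, b7])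

end

end Pool.Agent.Helper17.CT
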